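import Mathlib
import Pool.Agent.W810.LP
import Pool.Agent.W810.LP2

set_option autoImplicit false

namespace Pool.Agent.Results.MP_7f94de_pr.BoundedLogPotential
open Filter Topology MeasureTheory ProbabilityTheory

/-- Anti-concentration of elementary symmetric polynomials for i.i.d. complex variables whose law
has a piece (restriction to a set `D` of positive probability) with bounded logarithmic potential;
in particular for laws with a piece satisfying a Frostman condition, and for all laws that are not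
singular to Lebesgue measure. No moment assumption. -/
theorem result :
    ∀ (Ω : Type) [MeasurableSpace Ω] (P : Measure Ω) [IsProbabilityMeasure P]
      (Y : ℕ → Ω → ℂ),
      (∀ i, Measurable (Y i)) →
      iIndepFun Y P →
      (∀ i, IdentDistrib (Y i) (Y 0) P P) →
      -- a piece of the law with bounded logarithmic potential
      (∀ D : Set ℂ, MeasurableSet D → 0 < P {ω | Y 0 ω ∈ D} →
        (∀ c : ℂ, P {ω | Y 0 ω ∈ D ∧ Y 0 ω = c} = 0) →
        ∀ C : ℝ, 0 ≤ C →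
        (∀ c : ℂ, ∫⁻ ω in {ω | Y 0 ω ∈ D}, ENNReal.ofReal (-Real.log ‖Y 0 ω - c‖) ∂P
          ≤ ENNReal.ofReal C) →
        (∀ (n k : ℕ) (L : ℝ), 0 < L →
          P {ω | ‖∑ s ∈ (Finset.range n).powersetCard k, ∏ i ∈ s, Y i ω‖ ≤ Real.exp (-L)}
            ≤ ENNReal.ofReal ((1 - (P {ω | Y 0 ω ∈ D}).toReal / 2) ^ n * 2 ^ k
                + k * C / ((P {ω | Y 0 ω ∈ D}).toReal * L))) ∧
        (∀ (k : ℕ → ℕ),
          Tendsto (fun n : ℕ => (k n : ℝ) / (n : ℝ)) atTop (𝓝 0) →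
          ∀ ε : ℝ, 0 < ε →
            Tendsto
              (fun n : ℕ =>
                P {ω | ‖∑ s ∈ (Finset.range n).powersetCard (k n), ∏ i ∈ s, Y i ω‖
                      ≤ Real.exp (-(ε * (n : ℝ)))})
              atTop (𝓝 0))) ∧
      -- a piece with a Frostman condition, or a law not singular to Lebesgue measure
      (((∃ D : Set ℂ, MeasurableSet D ∧ 0 < P {ω | Y 0 ω ∈ D} ∧ ∃ K s : ℝ, 0 < s ∧
          ∀ (c : ℂ) (r : ℝ), 0 < r →
            P {ω | Y 0 ω ∈ D ∧ ‖Y 0 ω - c‖ ≤ r} ≤ ENNReal.ofReal (K * r ^ s)) ∨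
          ¬ (P.map (Y 0)) ⟂ₘ (volume : Measure ℂ)) →
        ∀ (k : ℕ → ℕ),
          Tendsto (fun n : ℕ => (k n : ℝ) / (n : ℝ)) atTop (𝓝 0) →
          ∀ ε : ℝ, 0 < ε →
            Tendsto
              (fun n : ℕ =>
                P {ω | ‖∑ s ∈ (Finset.range n).powersetCard (k n), ∏ i ∈ s, Y i ω‖
                      ≤ Real.exp (-(ε * (n : ℝ)))})
              atTop (𝓝 0)) := by
  intro Ω _ P _ Y hY hI hD
  have part1 : ∀ D : Set ℂ, MeasurableSet D → 0 < P {ω | Y 0 ω ∈ D} →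
        (∀ c : ℂ, P {ω | Y 0 ω ∈ D ∧ Y 0 ω = c} = 0) →
        ∀ C : ℝ, 0 ≤ C →
        (∀ c : ℂ, ∫⁻ ω in {ω | Y 0 ω ∈ D}, ENNReal.ofReal (-Real.log ‖Y 0 ω - c‖) ∂P
          ≤ ENNReal.ofReal C) →
        (∀ (k : ℕ → ℕ),
          Tendsto (fun n : ℕ => (k n : ℝ) / (n : ℝ)) atTop (𝓝 0) →
          ∀ ε : ℝ, 0 < ε →
            Tendsto
              (fun n : ℕ =>
                P {ω | ‖∑ s ∈ (Finset.range n).powersetCard (k n), ∏ i ∈ s, Y i ω‖
                      ≤ Real.exp (-(ε * (n : ℝ)))})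
              atTop (𝓝 0)) :=
    fun D hDm hpos hat C hC0 hC k hk ε hε =>
      W810.LP.limit_form Ω P Y hY hI hD D hDm hpos hat C hC0 hC k hk ε hε
  refine ⟨?_, ?_⟩
  · intro D hDm hpos hat C hC0 hC
    exact ⟨fun n k L hL => W810.LP.quant Ω P Y hY hI hD D hDm hpos hat C hC0 hC n k L hL,
      part1 D hDm hpos hat C hC0 hC⟩
  · intro h
    obtain ⟨D, hDm, hpos, K, s, hs, hK, hF⟩ : ∃ D : Set ℂ, MeasurableSet D ∧
        0 < P {ω | Y 0 ω ∈ D} ∧ ∃ K s : ℝ, 0 < s ∧ 0 ≤ K ∧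
          ∀ (c : ℂ) (r : ℝ), 0 < r →
            P {ω | Y 0 ω ∈ D ∧ ‖Y 0 ω - c‖ ≤ r} ≤ ENNReal.ofReal (K * r ^ s) := by
      rcases h with ⟨D, hDm, hpos, K, s, hs, hF⟩ | h
      · refine ⟨D, hDm, hpos, |K|, s, hs, abs_nonneg K, fun c r hr => (hF c r hr).trans ?_⟩
        apply ENNReal.ofReal_le_ofReal
        have : 0 ≤ r ^ s := Real.rpow_nonneg hr.le s
        exact mul_le_mul_of_nonneg_right (le_abs_self K) this
      · obtain ⟨D, hDm, hpos, K, hK, hF⟩ := W810.LP.ac_piece P (Y 0) (hY 0) h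
        exact ⟨D, hDm, hpos, K, 2, by norm_num, hK, hF⟩
    obtain ⟨h1, h2⟩ := W810.LP.frostman P (Y 0) (hY 0) D hDm K s hs hK hF
    exact part1 D hDm hpos h1 (K / s) (by positivity) h2

end Pool.Agent.Results.MP_7f94de_pr.BoundedLogPotential
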